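import Pool.Agent.Lib.MP_2f19c2_an.Defs
import Pool.Agent.Lib.MP_2f19c2_an.Proof

/-!
# A Banach space with the reciprocal Dunford-Pettis property but without its quantitative version

The definitions are in `Pool/Agent/Lib/MP_2f19c2_an/Defs.lean`, the construction and the proof in
`Pool/Agent/Lib/MP_2f19c2_an/Proof.lean`.
-/

set_option autoImplicit false

namespace Pool.Agent.Results.MP_2f19c2_an.NonQuant

open Pool.Agent.Lib.MP_2f19c2_an

universe v

/-- For either scalar field (`ℝ` or `ℂ`) there is a Banach space with the reciprocal
Dunford-Pettis property (tested against Banach spaces of an arbitrary universe) which does not have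
the quantitative reciprocal Dunford-Pettis property. -/
theorem result (𝕜 : Type) [RCLike 𝕜] :
    ∃ (X : Type) (_ : NormedAddCommGroup X) (_ : NormedSpace 𝕜 X) (_ : CompleteSpace X),
      HasRDPP.{0, v} 𝕜 X ∧ ¬ HasQuantRDPP.{0, 0} 𝕜 X :=
  exists_space 𝕜

end Pool.Agent.Results.MP_2f19c2_an.NonQuant
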